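import Pool.Agent.Helper89.OS.St1

/-!
# Project OS, module NSD: no self-dual simple object except the unit
-/

set_option autoImplicit false

open Matrix ComplexConjugate Pool.Agent.Helper94.YF Pool.Agent.Helper94.YG
open Pool.Agent.Helper89.OS

namespace Pool.Agent.Helper70.OS

/-- a row which is the row `x` of `S` -/
lemma nsd_row {I : Type} [Fintype I] [DecidableEq I] (Z : CentreRep I) (x : I) (A : I → ℂ)
    (h : ∀ l, Z.rho Sm x l = ∑ k, A k * Z.rho Sm k l) (v : I) :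
    A v = if x = v then 1 else 0 := by
  have hu : Z.rho Sm * (Z.rho Sm)ᴴ = 1 := by
    exact mul_eq_one_comm.1 (Z.unitary Sm)
  have hu' : ∀ a b, ∑ l, Z.rho Sm a l * conj (Z.rho Sm b l) = if a = b then 1 else 0 := by
    intro a b
    have h1 := congrFun (congrFun hu a) b
    rw [Matrix.mul_apply, Matrix.one_apply] at h1
    rw [← h1]
    apply Finset.sum_congr rfl
    intro l _
    rw [Matrix.conjTranspose_apply]
    rfl
  have h2 : ∑ l, Z.rho Sm x l * conj (Z.rho Sm v l) =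
      ∑ l, (∑ k, A k * Z.rho Sm k l) * conj (Z.rho Sm v l) :=
    Finset.sum_congr rfl (fun l _ => by rw [h l])
  rw [hu' x v] at h2
  rw [h2]
  have h3 : ∑ l, (∑ k, A k * Z.rho Sm k l) * conj (Z.rho Sm v l) =
      ∑ k, A k * ∑ l, Z.rho Sm k l * conj (Z.rho Sm v l) := by
    simp only [Finset.sum_mul, Finset.mul_sum]
    rw [Finset.sum_comm]
    apply Finset.sum_congr rfl
    intro k _
    apply Finset.sum_congr rfl
    intro l _
    ring
  rw [h3]
  simp [hu']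

lemma nsd_so {I : Type} [Fintype I] [DecidableEq I] (Z : CentreRep I) (l : I) :
    Z.rho Sm Z.o l ≠ 0 := by
  rw [Z.s_o l]
  have h1 : (Z.d l : ℂ) ≠ 0 := by
    exact_mod_cast (Z.d_pos l).ne'
  have h2 : (Z.n : ℂ) ≠ 0 := by
    exact_mod_cast Z.n_pos.ne'
  exact div_ne_zero h1 h2

lemma nsd_N1 {I : Type} [Fintype I] [DecidableEq I] (Z : CentreRep I) (x v : I) :
    (Z.N Z.o x v : ℂ) = if x = v then 1 else 0 := by
  apply nsd_row Z x (fun k => (Z.N Z.o x k : ℂ))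
  intro l
  exact mul_left_cancel₀ (nsd_so Z l) (Z.verlinde Z.o x l)

lemma nsd_N2 {I : Type} [Fintype I] [DecidableEq I] (Z : CentreRep I) (x v : I) :
    (Z.N x Z.o v : ℂ) = if x = v then 1 else 0 := by
  apply nsd_row Z x (fun k => (Z.N x Z.o k : ℂ))
  intro l
  have h := Z.verlinde x Z.o l
  rw [mul_comm (Z.rho Sm x l)] at h
  exact mul_left_cancel₀ (nsd_so Z l) h

lemma nsd_sum {I : Type} [Fintype I] [DecidableEq I] (o : I) (R : I → ℂ)
    (hR : ∀ a, R a = if a = o then 1 else 0) (M : Matrix I I ℂ) :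
    ∑ a, ∑ b, R a * conj (R b) * M a b = M o o := by
  have h1 : ∀ a, ∑ b, R a * conj (R b) * M a b = R a * M a o := by
    intro a
    rw [Finset.sum_eq_single o]
    · rw [hR o, if_pos rfl]
      simp
    · intro b _ hb
      rw [hR b, if_neg hb]
      simp
    · intro h
      exact absurd (Finset.mem_univ o) h
  simp only [h1]
  rw [Finset.sum_eq_single o]
  · rw [hR o, if_pos rfl, one_mul]
  · intro a _ ha
    rw [hR a, if_neg ha, zero_mul]
  · intro h
    exact absurd (Finset.mem_univ o) h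

theorem hNSD : StNSD := by
  intro hLDV hXD hIDP hFUS hDUA hINT hRAT I _ _ Z hodd V hV
  have hL : ¬ 2 ∣ Z.L := by
    intro h
    have h2 := hLDV hXD hIDP hFUS hDUA hINT hRAT I Z 2 Nat.prime_two h
    exact (Nat.not_even_iff_odd.2 hodd) (even_iff_two_dvd.2 h2)
  have : NeZero Z.L := ⟨Z.L_pos.ne'⟩
  have hcop : Nat.Coprime 2 Z.L := (Nat.Prime.coprime_iff_not_dvd Nat.prime_two).2 hL
  obtain ⟨hF1, -, -, -, -, hF6, -⟩ := hFUS hDUA I Z.toCentreRep
  obtain ⟨-, hsto, -⟩ := hDUA I Z.toCentreRep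
  set c : (ZMod Z.L)ˣ := ZMod.unitOfCoprime 2 hcop with hc
  have hcv : (c : ZMod Z.L) = 2 := by
    rw [hc, ZMod.coe_unitOfCoprime]
    rfl
  -- the columns of the two matrices
  have hU : ∀ a, Z.rho (U 1) a Z.o = if a = Z.o then 1 else 0 := by
    intro a
    rw [hF1 1, Matrix.diagonal_apply]
    by_cases h : a = Z.o
    · rw [if_pos h, if_pos h, h, hF6]
    · rw [if_neg h, if_neg h]
  let g : SL Z.L := Dg c * U ((c⁻¹ : (ZMod Z.L)ˣ) : ZMod Z.L)
  have hg : ∀ a, Z.rho g a Z.o = if a = Z.o then 1 else 0 := by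
    intro a
    show Z.rho (Dg c * U ((c⁻¹ : (ZMod Z.L)ˣ) : ZMod Z.L)) a Z.o = _
    rw [map_mul, Matrix.mul_apply, hF1]
    rw [Finset.sum_eq_single Z.o]
    · rw [Matrix.diagonal_apply_eq, hF6, mul_one, Z.borel]
    · intro b _ hb
      rw [Matrix.diagonal_apply_ne _ hb, mul_zero]
    · intro h
      exact absurd (Finset.mem_univ Z.o) h
  have hg00 : g 0 0 = 2 := by
    show (Dg c * U ((c⁻¹ : (ZMod Z.L)ˣ) : ZMod Z.L)) 0 0 = 2
    simp [Dg, U, hcv]
  have hg01 : g 0 1 = 1 := by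
    show (Dg c * U ((c⁻¹ : (ZMod Z.L)ˣ) : ZMod Z.L)) 0 1 = 1
    simp [Dg, U]
  obtain ⟨M, lam, hlam, hsum⟩ := Z.indicatorV Z.o Z.o V 2 (by norm_num)
  have hlam2 : ∀ r, lam r ^ 2 = 1 := by
    intro r
    rw [hlam r, Z.th_o]
    simp
  -- `l = 2`
  have h2 := hsum 2 (U 1) (by simp [U]) (by simp [U])
  rw [nsd_sum Z.o (fun a => Z.rho (U 1) a Z.o) hU] at h2
  have h2' : (NMat Z.N Z.st V ^ Nat.gcd 2 2) Z.o Z.o = 1 := by
    rw [Nat.gcd_self, pow_two, Matrix.mul_apply]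
    rw [Finset.sum_eq_single V]
    · show (Z.N Z.o (Z.st V) V : ℂ) * (Z.N V (Z.st Z.o) V : ℂ) = 1
      rw [hV, hsto, nsd_N1, nsd_N2, if_pos rfl, one_mul]
    · intro b _ hb
      show (Z.N Z.o (Z.st b) V : ℂ) * (Z.N b (Z.st Z.o) V : ℂ) = 0
      rw [hsto, nsd_N2, if_neg hb, mul_zero]
    · intro h
      exact absurd (Finset.mem_univ V) h
  rw [h2'] at h2
  simp only [hlam2] at h2
  have hM : M = 1 := by
    rw [Finset.sum_const, Finset.card_univ, Fintype.card_fin, nsmul_eq_mul, mul_one] at h2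
    exact_mod_cast h2
  -- `l = 1`
  have h1 := hsum 1 g (by rw [hg00]; simp) (by rw [hg01]; simp)
  rw [nsd_sum Z.o (fun a => Z.rho g a Z.o) hg] at h1
  have h1' : (NMat Z.N Z.st V ^ Nat.gcd 1 2) Z.o Z.o = if Z.o = V then 1 else 0 := by
    rw [Nat.gcd_one_left, pow_one]
    show (Z.N Z.o (Z.st Z.o) V : ℂ) = _
    rw [hsto, nsd_N1]
  rw [h1'] at h1
  by_contra hne
  rw [if_neg (Ne.symm hne)] at h1
  subst hM
  simp only [pow_one] at h1
  rw [Fin.sum_univ_one] at h1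
  have h3 := hlam2 0
  rw [h1] at h3
  norm_num at h3

end Pool.Agent.Helper70.OS
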